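import Pool.Agent.N659.HB.Stm6

/-! Project LD, part TVU: a small Cauchy component changes the uniform law little. -/

set_option autoImplicit false

namespace Pool.Agent.N946.LD.Tvu

open MeasureTheory Filter Pool.Agent.N659.HB
open scoped Topology ENNReal

noncomputable section

lemma unif_real {c : ℝ} (hc : 0 < c) {S : Set ℝ} (hS : MeasurableSet S) :
    (unif c S).toReal = 1 / (2 * c) * (volume (S ∩ Set.Icc (-c) c)).toReal := by
  unfold unif
  rw [Measure.smul_apply, smul_eq_mul, Measure.restrict_apply hS, ENNReal.toReal_mul,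
    ENNReal.toReal_ofReal (by positivity)]

lemma unif_prob {c : ℝ} (hc : 0 < c) : IsProbabilityMeasure (unif c) := by
  refine ⟨?_⟩
  unfold unif
  rw [Measure.smul_apply, smul_eq_mul, Measure.restrict_apply MeasurableSet.univ, Set.univ_inter,
    Real.volume_Icc, ← ENNReal.ofReal_mul (by positivity)]
  rw [show 1 / (2 * c) * (c - -c) = 1 by field_simp; ring]
  exact ENNReal.ofReal_one

lemma fin_Icc (a b : ℝ) (A : Set ℝ) : volume (A ∩ Set.Icc a b) ≠ ⊤ :=
  ((measure_mono Set.inter_subset_right).trans_lt measure_Icc_lt_top).ne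

/-- one half of the comparison -/
lemma diff_le {c a b : ℝ} (A : Set ℝ) (h : volume (Set.Icc (-c + a) (c + a) \
    Set.Icc (-c + b) (c + b)) ≤ ENNReal.ofReal |a - b|) :
    (volume (A ∩ Set.Icc (-c + a) (c + a))).toReal ≤
      (volume (A ∩ Set.Icc (-c + b) (c + b))).toReal + |a - b| := by
  have h1 : A ∩ Set.Icc (-c + a) (c + a) ⊆ (A ∩ Set.Icc (-c + b) (c + b)) ∪
      (Set.Icc (-c + a) (c + a) \ Set.Icc (-c + b) (c + b)) := by
    intro x hx
    by_cases hb : x ∈ Set.Icc (-c + b) (c + b)
    · exact Or.inl ⟨hx.1, hb⟩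
    · exact Or.inr ⟨hx.2, hb⟩
  have h2 : volume (A ∩ Set.Icc (-c + a) (c + a)) ≤ volume (A ∩ Set.Icc (-c + b) (c + b)) +
      ENNReal.ofReal |a - b| :=
    (measure_mono h1).trans ((measure_union_le _ _).trans (add_le_add le_rfl h))
  have h3 := ENNReal.toReal_mono (ENNReal.add_ne_top.2 ⟨fin_Icc _ _ _, ENNReal.ofReal_ne_top⟩) h2
  rwa [ENNReal.toReal_add (fin_Icc _ _ _) ENNReal.ofReal_ne_top,
    ENNReal.toReal_ofReal (abs_nonneg _)] at h3

lemma vol_diff {c : ℝ} (a b : ℝ) : volume (Set.Icc (-c + a) (c + a) \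
    Set.Icc (-c + b) (c + b)) ≤ ENNReal.ofReal |a - b| := by
  rcases le_total b a with hab | hab
  · have : Set.Icc (-c + a) (c + a) \ Set.Icc (-c + b) (c + b) ⊆ Set.Ioc (c + b) (c + a) := by
      rintro x ⟨⟨h1, h2⟩, h3⟩
      refine ⟨?_, h2⟩
      by_contra h4
      exact h3 ⟨by linarith, not_lt.1 h4⟩
    refine (measure_mono this).trans ?_
    rw [Real.volume_Ioc, abs_of_nonneg (by linarith)]
    exact ENNReal.ofReal_le_ofReal (by linarith)
  · have : Set.Icc (-c + a) (c + a) \ Set.Icc (-c + b) (c + b) ⊆ Set.Ico (-c + a) (-c + b) := by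
      rintro x ⟨⟨h1, h2⟩, h3⟩
      refine ⟨h1, ?_⟩
      by_contra h4
      exact h3 ⟨not_lt.1 h4, by linarith⟩
    refine (measure_mono this).trans ?_
    rw [Real.volume_Ico, abs_of_nonpos (by linarith)]
    exact ENNReal.ofReal_le_ofReal (by linarith)

lemma shift_bound {c : ℝ} (hc : 0 < c) {A : Set ℝ} (hA : MeasurableSet A) (t : ℝ) :
    |(unif c ((fun w => w + t) ⁻¹' A)).toReal - (unif c A).toReal| ≤ min 1 (|t| / c) := by
  have := unif_prob hc
  refine le_min ?_ ?_
  · have h1 : (unif c ((fun w => w + t) ⁻¹' A)).toReal ≤ 1 := by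
      have := ENNReal.toReal_mono ENNReal.one_ne_top (prob_le_one (μ := unif c)
        (s := (fun w => w + t) ⁻¹' A))
      simpa using this
    have h2 : (unif c A).toReal ≤ 1 := by
      have := ENNReal.toReal_mono ENNReal.one_ne_top (prob_le_one (μ := unif c) (s := A))
      simpa using this
    have h3 : 0 ≤ (unif c ((fun w => w + t) ⁻¹' A)).toReal := ENNReal.toReal_nonneg
    have h4 : 0 ≤ (unif c A).toReal := ENNReal.toReal_nonneg
    rw [abs_le]
    constructor <;> linarith
  · have hm : MeasurableSet ((fun w : ℝ => w + t) ⁻¹' A) := (measurable_id.add_const t) hA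
    rw [unif_real hc hm, unif_real hc hA]
    have h1 : (fun w : ℝ => w + t) ⁻¹' A ∩ Set.Icc (-c) c =
        (fun w : ℝ => w + t) ⁻¹' (A ∩ Set.Icc (-c + t) (c + t)) := by
      ext x
      simp only [Set.mem_inter_iff, Set.mem_preimage, Set.mem_Icc]
      constructor
      · rintro ⟨h1, h2, h3⟩
        exact ⟨h1, by linarith, by linarith⟩
      · rintro ⟨h1, h2, h3⟩
        exact ⟨h1, by linarith, by linarith⟩
    rw [h1, measure_preimage_add_right]
    have e1 := diff_le (c := c) A (vol_diff (c := c) t 0)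
    have e2 := diff_le (c := c) A (vol_diff (c := c) 0 t)
    simp only [add_zero, sub_zero, zero_sub, abs_neg] at e1 e2
    rw [← mul_sub, abs_mul, abs_of_pos (by positivity : 0 < 1 / (2 * c))]
    have h2 : |(volume (A ∩ Set.Icc (-c + t) (c + t))).toReal -
        (volume (A ∩ Set.Icc (-c) c)).toReal| ≤ |t| := by
      rw [abs_le]
      constructor <;> linarith
    have h3 : 1 / (2 * c) * |t| ≤ |t| / c := by
      rw [div_mul_eq_mul_div, one_mul, div_le_div_iff₀ (by positivity) hc]
      nlinarith [abs_nonneg t, mul_nonneg (abs_nonneg t) hc.le]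
    exact (mul_le_mul_of_nonneg_left h2 (by positivity)).trans h3

/-- the convolution as an integral -/
lemma cyl_real {c : ℝ} (hc : 0 < c) (δ : ℝ) {A : Set ℝ} (hA : MeasurableSet A) :
    Measurable (fun a : ℝ => (unif c ((fun w => w + δ * a) ⁻¹' A)).toReal) ∧
    (cyl (unif c) δ A).toReal = ∫ a, (unif c ((fun w => w + δ * a) ⁻¹' A)).toReal
      ∂(ProbabilityTheory.cauchyMeasure 0 1) := by
  have := unif_prob hc
  have hf : Measurable (fun p : ℝ × ℝ => p.1 + δ * p.2) := by fun_prop
  have hs : MeasurableSet ((fun p : ℝ × ℝ => p.1 + δ * p.2) ⁻¹' A) := hf hA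
  have hm : Measurable (fun a : ℝ => unif c ((fun w => w + δ * a) ⁻¹' A)) :=
    measurable_measure_prodMk_right hs
  refine ⟨hm.ennreal_toReal, ?_⟩
  unfold cyl
  rw [Measure.map_apply hf hA, Measure.prod_apply_symm hs, integral_toReal hm.aemeasurable
    (Eventually.of_forall fun a => measure_lt_top _ _)]
  rfl

end

open Pool.Agent.N659.HB in
theorem main : S_TVU := by
  intro c ε hc hε
  have := unif_prob hc
  -- dominated convergence
  have hlim : Tendsto (fun n : ℕ => ∫ a : ℝ, min 1 (|(1 / ((n : ℝ) + 1)) * a| / c)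
      ∂(ProbabilityTheory.cauchyMeasure 0 1)) atTop (𝓝 (∫ _ : ℝ, (0 : ℝ)
      ∂(ProbabilityTheory.cauchyMeasure 0 1))) := by
    refine tendsto_integral_of_dominated_convergence (fun _ => (1 : ℝ)) (fun n => ?_)
      (integrable_const _) (fun n => Eventually.of_forall fun a => ?_)
      (Eventually.of_forall fun a => ?_)
    · exact (by fun_prop : Measurable fun a : ℝ =>
        min 1 (|(1 / ((n : ℝ) + 1)) * a| / c)).aestronglyMeasurable
    · rw [Real.norm_eq_abs, abs_of_nonneg (le_min zero_le_one (by positivity))]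
      exact min_le_left _ _
    · have h1 : Tendsto (fun n : ℕ => (1 / ((n : ℝ) + 1)) * a) atTop (𝓝 (0 * a)) :=
        tendsto_one_div_add_atTop_nhds_zero_nat.mul_const a
      have h2 : Tendsto (fun n : ℕ => |(1 / ((n : ℝ) + 1)) * a| / c) atTop (𝓝 (|0 * a| / c)) :=
        h1.abs.div_const c
      have h3 := (tendsto_const_nhds (x := (1 : ℝ)) (f := atTop (α := ℕ))).min h2
      simpa using h3
  rw [integral_zero] at hlim
  obtain ⟨n, hn⟩ := (hlim.eventually (gt_mem_nhds hε)).exists
  refine ⟨1 / ((n : ℝ) + 1), by positivity, fun δ hδ hδn A hA => ?_⟩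
  obtain ⟨hm, he⟩ := cyl_real hc δ hA
  have hconst : (unif c A).toReal = ∫ _ : ℝ, (unif c A).toReal
      ∂(ProbabilityTheory.cauchyMeasure 0 1) := by
    simp
  have hint1 : Integrable (fun a : ℝ => (unif c ((fun w => w + δ * a) ⁻¹' A)).toReal)
      (ProbabilityTheory.cauchyMeasure 0 1) := by
    refine Integrable.mono' (integrable_const (1 : ℝ)) hm.aestronglyMeasurable
      (Eventually.of_forall fun a => ?_)
    rw [Real.norm_eq_abs, abs_of_nonneg ENNReal.toReal_nonneg]
    have := ENNReal.toReal_mono ENNReal.one_ne_top (prob_le_one (μ := unif c)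
        (s := (fun w => w + δ * a) ⁻¹' A))
    simpa using this
  rw [he, hconst, ← integral_sub hint1 (integrable_const _)]
  refine (abs_integral_le_integral_abs).trans (le_trans ?_ hn.le)
  refine integral_mono (hint1.sub (integrable_const _)).abs ?_ (fun a => ?_)
  · refine Integrable.mono' (integrable_const (1 : ℝ)) (by fun_prop : Measurable fun a : ℝ =>
        min 1 (|(1 / ((n : ℝ) + 1)) * a| / c)).aestronglyMeasurable
      (Eventually.of_forall fun a => ?_)
    rw [Real.norm_eq_abs, abs_of_nonneg (le_min zero_le_one (by positivity))]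
    exact min_le_left _ _
  · refine (shift_bound hc hA (δ * a)).trans (min_le_min le_rfl ?_)
    refine div_le_div_of_nonneg_right ?_ hc.le
    rw [abs_mul, abs_mul, abs_of_pos hδ, abs_of_pos (by positivity : (0 : ℝ) < 1 / ((n : ℝ) + 1))]
    exact mul_le_mul_of_nonneg_right hδn (abs_nonneg _)

end Pool.Agent.N946.LD.Tvu
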